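import Pool.Agent.H79.BN.Chk

/-!
# (C1) arithmetic in the numbers a + b sqrt 5
-/

set_option autoImplicit false

open MeasureTheory Set Filter Topology Pool.Agent.H93.BL Pool.Agent.H79.BN

namespace Pool.Agent.H20.BN

theorem sq5 : √(5 : ℝ) * √5 = 5 := Real.mul_self_sqrt (by norm_num)

theorem pos_val (x : Z5) (hx : x.pos = true) : 0 < x.val := by
  have hs : 0 < √(5 : ℝ) := Real.sqrt_pos.2 (by norm_num)
  have h5 := sq5
  unfold Z5.pos at hx
  unfold Z5.val
  split_ifs at hx with h1 h2
  · rw [Bool.or_eq_true, decide_eq_true_eq, decide_eq_true_eq] at hx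
    have h1' : (0 : ℝ) ≤ x.a := by exact_mod_cast h1
    have h2' : (0 : ℝ) ≤ x.b := by exact_mod_cast h2
    have h3 : 0 ≤ (x.b : ℝ) * √5 := mul_nonneg h2' hs.le
    rcases hx with h | h
    · have h' : (0 : ℝ) < x.a := by exact_mod_cast h
      linarith
    · have h' : (0 : ℝ) < x.b := by exact_mod_cast h
      have h4 : 0 < (x.b : ℝ) * √5 := mul_pos h' hs
      linarith
  · rw [decide_eq_true_eq] at hx
    have hx' : 5 * ((x.b : ℝ) * x.b) < x.a * x.a := by exact_mod_cast hx
    have h1' : (0 : ℝ) ≤ x.a := by exact_mod_cast h1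
    by_contra hcon
    push Not at hcon
    have h3 : (x.a : ℝ) ≤ -((x.b : ℝ) * √5) := by linarith
    have h4 := mul_self_le_mul_self h1' h3
    have h6 : -((x.b : ℝ) * √5) * -((x.b : ℝ) * √5) = 5 * ((x.b : ℝ) * x.b) := by
      linear_combination (x.b : ℝ) * x.b * h5
    rw [h6] at h4
    linarith
  · rw [Bool.and_eq_true, decide_eq_true_eq, decide_eq_true_eq] at hx
    have hx' : (x.a : ℝ) * x.a < 5 * ((x.b : ℝ) * x.b) := by exact_mod_cast hx.2
    have h2' : (0 : ℝ) < x.b := by exact_mod_cast hx.1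
    by_contra hcon
    push Not at hcon
    have h3 : (x.b : ℝ) * √5 ≤ -(x.a : ℝ) := by linarith
    have h4 := mul_self_le_mul_self (mul_nonneg h2'.le hs.le) h3
    have h6 : ((x.b : ℝ) * √5) * ((x.b : ℝ) * √5) = 5 * ((x.b : ℝ) * x.b) := by
      linear_combination (x.b : ℝ) * x.b * h5
    rw [h6] at h4
    linarith

theorem neg_val (x : Z5) : x.neg.val = -x.val := by
  unfold Z5.neg Z5.val
  push_cast
  ring

theorem isz_val (x : Z5) (hx : x.isz = true) : x.val = 0 := by
  unfold Z5.isz at hx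
  rw [Bool.and_eq_true, decide_eq_true_eq, decide_eq_true_eq] at hx
  unfold Z5.val
  rw [hx.1, hx.2]
  simp

theorem isneg_val (x : Z5) (hx : x.isneg = true) : x.val < 0 := by
  have h := pos_val x.neg hx
  rw [neg_val] at h
  linarith

theorem c1 : Pool.Agent.H79.BN.T_C1 := by
  intro x y
  refine ⟨?_, ?_, ?_, neg_val x, pos_val x, isz_val x, isneg_val x, fun h => ?_, fun h => ?_, ?_⟩
  · unfold Z5.add Z5.val
    push_cast
    ring
  · unfold Z5.sub Z5.val
    push_cast
    ring
  · unfold Z5.mul Z5.val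
    push_cast
    linear_combination (-(x.b : ℝ) * y.b) * sq5
  · unfold Z5.nonneg at h
    rw [Bool.or_eq_true] at h
    rcases h with h | h
    · exact (isz_val x h).ge
    · exact (pos_val x h).le
  · unfold Z5.nonpos at h
    rw [Bool.or_eq_true] at h
    rcases h with h | h
    · exact (isz_val x h).le
    · exact (isneg_val x h).le
  · simp [Z5.val]

end Pool.Agent.H20.BN
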