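import Pool.Agent.H79.BN.Chk

/-!
# (C2) points with coordinates in the numbers a + b sqrt 5
-/

set_option autoImplicit false

open MeasureTheory Set Filter Topology Pool.Agent.H93.BL Pool.Agent.H79.BN

namespace Pool.Agent.H20.BN

theorem c2 (h1 : Pool.Agent.H79.BN.T_C1) : Pool.Agent.H79.BN.T_C2 := by
  intro D p q l hD
  have hadd : ∀ x y : Z5, (x.add y).val = x.val + y.val := fun x y => (h1 x y).1
  have hsub : ∀ x y : Z5, (x.sub y).val = x.val - y.val := fun x y => (h1 x y).2.1
  have hmul : ∀ x y : Z5, (x.mul y).val = x.val * y.val := fun x y => (h1 x y).2.2.1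
  have hneg : ∀ x : Z5, x.neg.val = -x.val := fun x => (h1 x x).2.2.2.1
  have hs : √D.val * √D.val = D.val := Real.mul_self_sqrt hD.le
  refine ⟨?_, ?_, ?_, ?_, ?_, ?_, ?_, ?_⟩
  · apply Complex.ext
    · simp only [Pt.add, Pt.val, Complex.add_re, hadd]
    · simp only [Pt.add, Pt.val, Complex.add_im, hadd]
      ring
  · apply Complex.ext
    · simp only [Pt.sub, Pt.val, Complex.sub_re, hsub]
    · simp only [Pt.sub, Pt.val, Complex.sub_im, hsub]
      ring
  · apply Complex.ext
    · simp only [Pt.neg, Pt.val, Complex.neg_re, hneg]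
    · simp only [Pt.neg, Pt.val, Complex.neg_im, hneg]
      ring
  · apply Complex.ext
    · simp only [Pt.smul, Pt.val, Complex.re_ofReal_mul, hmul]
    · simp only [Pt.smul, Pt.val, Complex.im_ofReal_mul, hmul]
      ring
  · simp only [cr, Pt.crz, Pt.val, hsub, hmul]
    ring
  · simp only [ip, Pt.ipz, Pt.val, hadd, hmul]
    linear_combination (p.y.val * q.y.val) * hs
  · apply Complex.ext
    · simp only [rf, Pt.rfz, Pt.val, hadd, hsub, hmul, sq, Complex.mul_re, Complex.mul_im,
        Complex.conj_re, Complex.conj_im]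
      linear_combination (-(p.y.val * p.y.val * q.x.val) + 2 * p.x.val * p.y.val * q.y.val) * hs
    · simp only [rf, Pt.rfz, Pt.val, hadd, hsub, hmul, sq, Complex.mul_re, Complex.mul_im,
        Complex.conj_re, Complex.conj_im]
      linear_combination (√D.val * p.y.val * p.y.val * q.y.val) * hs
  · rw [Complex.sq_norm, Complex.normSq_apply]
    simp only [Pt.ipz, Pt.val, hadd, hmul]
    linear_combination (p.y.val * p.y.val) * hs

end Pool.Agent.H20.BN
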