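import Pool.Agent.H79.BN.Chk

/-!
# (C6) the regular pentagon
-/

set_option autoImplicit false

open MeasureTheory Set Filter Topology Pool.Agent.H93.BL Pool.Agent.H79.BN

namespace Pool.Agent.H20.BN

theorem cos_two : Real.cos (2 * Real.pi / 5) = (√5 - 1) / 4 := by
  have h : 2 * Real.pi / 5 = 2 * (Real.pi / 5) := by ring
  have h5 : √(5 : ℝ) * √5 = 5 := Real.mul_self_sqrt (by norm_num)
  rw [h, Real.cos_two_mul, Real.cos_pi_div_five]
  linear_combination (1 / 8 : ℝ) * h5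

theorem cos_four : Real.cos (4 * Real.pi / 5) = -(1 + √5) / 4 := by
  have h : 4 * Real.pi / 5 = Real.pi - Real.pi / 5 := by ring
  rw [h, Real.cos_pi_sub, Real.cos_pi_div_five]
  ring

theorem sin_two : Real.sin (2 * Real.pi / 5) = √(10 + 2 * √5) / 4 := by
  have h5 : √(5 : ℝ) * √5 = 5 := Real.mul_self_sqrt (by norm_num)
  have h0 : 0 ≤ √(5 : ℝ) := Real.sqrt_nonneg _
  have hpos : 0 < Real.sin (2 * Real.pi / 5) :=
    Real.sin_pos_of_pos_of_lt_pi (by positivity) (by linarith [Real.pi_pos])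
  have h1 := Real.sin_sq_add_cos_sq (2 * Real.pi / 5)
  rw [cos_two] at h1
  have h2 : (4 * Real.sin (2 * Real.pi / 5)) ^ 2 = 10 + 2 * √5 := by
    linear_combination 16 * h1 - h5
  have h3 : √(10 + 2 * √5) = 4 * Real.sin (2 * Real.pi / 5) := by
    rw [← h2, Real.sqrt_sq (by positivity)]
  rw [h3]
  ring

theorem sin_four : Real.sin (4 * Real.pi / 5) = (√5 - 1) * √(10 + 2 * √5) / 8 := by
  have h : 4 * Real.pi / 5 = 2 * (2 * Real.pi / 5) := by ring
  rw [h, Real.sin_two_mul, cos_two, sin_two]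
  ring

theorem exp_k (x : ℝ) (u v : ℝ) (hc : Real.cos x = u) (hs : Real.sin x = v) :
    8 * Complex.exp (x * Complex.I) = ⟨8 * u, 8 * v⟩ := by
  rw [← hc, ← hs]
  apply Complex.ext
  · rw [show (8 : ℂ) = ((8 : ℝ) : ℂ) by norm_num, Complex.re_ofReal_mul,
      Complex.exp_ofReal_mul_I_re]
  · rw [show (8 : ℂ) = ((8 : ℝ) : ℂ) by norm_num, Complex.im_ofReal_mul,
      Complex.exp_ofReal_mul_I_im]

theorem fin_k (P : Pt) (k : ℕ) (u v : ℝ) (hc : Real.cos (2 * Real.pi * k / 5) = u)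
    (hs : Real.sin (2 * Real.pi * k / 5) = v) (hx : P.x.val = 8 * u)
    (hy : √(Z5.val ⟨10, 2⟩) * P.y.val = 8 * v) :
    P.val ⟨10, 2⟩ = 8 * Complex.exp (2 * Real.pi * Complex.I * k / 5) := by
  have h : (2 * Real.pi * Complex.I * k / 5 : ℂ) =
      ((2 * Real.pi * k / 5 : ℝ) : ℂ) * Complex.I := by
    push_cast
    ring
  rw [h, exp_k _ u v hc hs]
  apply Complex.ext
  · exact hx
  · exact hy

theorem c6 : Pool.Agent.H79.BN.T_C6 := by
  intro k
  have h5 : √(5 : ℝ) * √5 = 5 := Real.mul_self_sqrt (by norm_num)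
  have hD : Z5.val ⟨10, 2⟩ = 10 + 2 * √5 := by
    simp [Z5.val]
  fin_cases k
  · refine fin_k (pent 0) 0 1 0 ?_ ?_ ?_ ?_
    · simp
    · simp
    · simp [pent, Z5.val]
    · simp [pent, Z5.val]
  · refine fin_k (pent 1) 1 ((√5 - 1) / 4) (√(10 + 2 * √5) / 4) ?_ ?_ ?_ ?_
    · rw [Nat.cast_one, mul_one]
      exact cos_two
    · rw [Nat.cast_one, mul_one]
      exact sin_two
    · simp [pent, Z5.val]
      ring
    · rw [hD]
      simp [pent, Z5.val]
      ring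
  · refine fin_k (pent 2) 2 (-(1 + √5) / 4) ((√5 - 1) * √(10 + 2 * √5) / 8) ?_ ?_ ?_ ?_
    · rw [show 2 * Real.pi * ((2 : ℕ) : ℝ) / 5 = 4 * Real.pi / 5 by push_cast; ring]
      exact cos_four
    · rw [show 2 * Real.pi * ((2 : ℕ) : ℝ) / 5 = 4 * Real.pi / 5 by push_cast; ring]
      exact sin_four
    · simp [pent, Z5.val]
      ring
    · rw [hD]
      simp [pent, Z5.val]
      ring
  · refine fin_k (pent 3) 3 (-(1 + √5) / 4) (-((√5 - 1) * √(10 + 2 * √5) / 8)) ?_ ?_ ?_ ?_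
    · rw [show 2 * Real.pi * ((3 : ℕ) : ℝ) / 5 = 2 * Real.pi - 4 * Real.pi / 5 by
        push_cast; ring, Real.cos_two_pi_sub, cos_four]
    · rw [show 2 * Real.pi * ((3 : ℕ) : ℝ) / 5 = 2 * Real.pi - 4 * Real.pi / 5 by
        push_cast; ring, Real.sin_two_pi_sub, sin_four]
    · simp [pent, Z5.val]
      ring
    · rw [hD]
      simp [pent, Z5.val]
      ring
  · refine fin_k (pent 4) 4 ((√5 - 1) / 4) (-(√(10 + 2 * √5) / 4)) ?_ ?_ ?_ ?_
    · rw [show 2 * Real.pi * ((4 : ℕ) : ℝ) / 5 = 2 * Real.pi - 2 * Real.pi / 5 by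
        push_cast; ring, Real.cos_two_pi_sub, cos_two]
    · rw [show 2 * Real.pi * ((4 : ℕ) : ℝ) / 5 = 2 * Real.pi - 2 * Real.pi / 5 by
        push_cast; ring, Real.sin_two_pi_sub, sin_two]
    · simp [pent, Z5.val]
      ring
    · rw [hD]
      simp [pent, Z5.val]
      ring

end Pool.Agent.H20.BN
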