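import Pool.Agent.H79.BN.Targets

/-!
# (EXA) the open convex polygon
-/

set_option autoImplicit false

open MeasureTheory Set Filter Topology Pool.Agent.H93.BL Pool.Agent.H79.BN

namespace Pool.Agent.H20.BN

theorem cr_sub_right (e x y : ℂ) : cr e (x - y) = cr e x - cr e y := by
  unfold cr
  rw [Complex.sub_im, Complex.sub_re]
  ring

theorem cr_sum_right {ι : Type} (s : Finset ι) (e : ℂ) (f : ι → ℂ) :
    cr e (∑ i ∈ s, f i) = ∑ i ∈ s, cr e (f i) := by
  unfold cr
  rw [Complex.im_sum, Complex.re_sum, Finset.sum_sub_distrib, Finset.mul_sum, Finset.mul_sum]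

theorem cr_sum_left {ι : Type} (s : Finset ι) (x : ℂ) (f : ι → ℂ) :
    cr (∑ i ∈ s, f i) x = ∑ i ∈ s, cr (f i) x := by
  unfold cr
  rw [Complex.im_sum, Complex.re_sum, Finset.sum_sub_distrib, Finset.sum_mul, Finset.sum_mul]

theorem cr_real_right (e x : ℂ) (a : ℝ) : cr e ((a : ℂ) * x) = a * cr e x := by
  unfold cr
  rw [Complex.im_ofReal_mul, Complex.re_ofReal_mul]
  ring

theorem exa (h0 : T_V0) (h1 : T_V1) : T_EXA := by
  intro n _ w hn hw
  obtain ⟨-, -, hg, hnn, -⟩ := h1 n w hn hw
  refine ⟨?_, ?_, ?_, ?_⟩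
  · have h2 : Omw w = ⋂ j, {x | 0 < cr (ed w j) (x - w j)} := by
      ext x
      rw [mem_iInter]
      exact Iff.rfl
    rw [h2]
    refine isOpen_iInter_of_finite fun j => isOpen_lt continuous_const ?_
    unfold cr
    fun_prop
  · intro x hx y hy a b ha hb hab j
    have hx' := hx j
    have hy' := hy j
    have h2 : cr (ed w j) (a • x + b • y - w j) =
        a * cr (ed w j) (x - w j) + b * cr (ed w j) (y - w j) := by
      unfold cr
      simp only [Complex.sub_re, Complex.sub_im, Complex.add_re, Complex.add_im,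
        Complex.real_smul, Complex.re_ofReal_mul, Complex.im_ofReal_mul]
      linear_combination ((ed w j).im * (w j).re - (ed w j).re * (w j).im) * (-hab)
    rw [h2]
    rcases ha.lt_or_eq with h | h
    · have h3 : 0 < a * cr (ed w j) (x - w j) := mul_pos h hx'
      have h4 : 0 ≤ b * cr (ed w j) (y - w j) := mul_nonneg hb hy'.le
      linarith
    · have hb1 : b = 1 := by linarith
      rw [← h, hb1, zero_mul, one_mul, zero_add]
      exact hy'
  · have hn0 : (0 : ℝ) < n := by
      have : 0 < n := by omega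
      exact_mod_cast this
    refine ⟨((1 / n : ℝ) : ℂ) * ∑ k, w k, fun j => ?_⟩
    have h2 : cr (ed w j) (((1 / n : ℝ) : ℂ) * ∑ k, w k - w j) =
        (1 / n) * ∑ k, cr (ed w j) (w k - w j) := by
      rw [cr_sub_right, cr_real_right, cr_sum_right]
      simp only [cr_sub_right]
      rw [Finset.sum_sub_distrib, Finset.sum_const, Finset.card_univ, Fintype.card_fin,
        nsmul_eq_mul]
      field_simp
    rw [h2]
    refine mul_pos (by positivity) (Finset.sum_pos' (fun k _ => hnn j k)
      ⟨j + 2, Finset.mem_univ _, ?_⟩)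
    obtain ⟨-, h3, h4, -⟩ := h0 n hn j
    exact hw j (j + 2) h3 h4
  · have hsum : ∑ j, ed w j = 0 := by
      unfold ed
      rw [Finset.sum_sub_distrib]
      have := Equiv.sum_comp (Equiv.addRight (1 : Fin n)) w
      simp only [Equiv.coe_addRight] at this
      rw [this, sub_self]
    set Cst : ℝ := -∑ j, cr (ed w j) (w j) with hC
    have hle : ∀ x ∈ Omw w, ∀ j, cr (ed w j) (x - w j) ≤ Cst := by
      intro x hx j
      have h2 : ∑ j, cr (ed w j) (x - w j) = Cst := by
        simp only [cr_sub_right]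
        rw [Finset.sum_sub_distrib, ← cr_sum_left, hsum]
        simp [cr, hC]
      rw [← h2]
      exact Finset.single_le_sum (f := fun j => cr (ed w j) (x - w j))
        (fun i _ => (hx i).le) (Finset.mem_univ j)
    have hab : ∀ x ∈ Omw w, ∀ j, |cr (ed w j) x| ≤ |Cst| + |cr (ed w j) (w j)| := by
      intro x hx j
      have h2 := hle x hx j
      have h3 := hx j
      rw [cr_sub_right] at h2 h3
      have h4 := le_abs_self Cst
      have h5 := le_abs_self (cr (ed w j) (w j))
      have h6 := neg_abs_le (cr (ed w j) (w j))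
      have h7 := abs_nonneg Cst
      rw [abs_le]
      constructor <;> linarith
    have hg0 := hg 0
    rw [isBounded_iff_forall_norm_le]
    refine ⟨((|Cst| + |cr (ed w 0) (w 0)|) * ‖ed w (0 + 1)‖ +
      (|Cst| + |cr (ed w (0 + 1)) (w (0 + 1))|) * ‖ed w 0‖) / cr (ed w 0) (ed w (0 + 1)), ?_⟩
    intro x hx
    have h2 : ((cr (ed w 0) (ed w (0 + 1)) : ℝ) : ℂ) * x =
        ((cr (ed w 0) x : ℝ) : ℂ) * ed w (0 + 1) - ((cr (ed w (0 + 1)) x : ℝ) : ℂ) * ed w 0 := by
      apply Complex.ext
      · simp only [Complex.sub_re, Complex.re_ofReal_mul, cr]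
        ring
      · simp only [Complex.sub_im, Complex.im_ofReal_mul, cr]
        ring
    have h3 : cr (ed w 0) (ed w (0 + 1)) * ‖x‖ =
        ‖((cr (ed w 0) x : ℝ) : ℂ) * ed w (0 + 1) - ((cr (ed w (0 + 1)) x : ℝ) : ℂ) * ed w 0‖ := by
      rw [← h2, norm_mul, Complex.norm_real, Real.norm_of_nonneg hg0.le]
    rw [le_div_iff₀ hg0, mul_comm, h3]
    refine (norm_sub_le _ _).trans ?_
    rw [norm_mul, norm_mul, Complex.norm_real, Complex.norm_real, Real.norm_eq_abs,
      Real.norm_eq_abs]
    exact add_le_add (mul_le_mul_of_nonneg_right (hab x hx 0) (norm_nonneg _))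
      (mul_le_mul_of_nonneg_right (hab x hx (0 + 1)) (norm_nonneg _))

end Pool.Agent.H20.BN
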